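import Pool.Agent.V7H50.Low
import Pool.Agent.Y216.SV.Bog

/-! Bogomolov sheaves on the quotient from forms upstairs. -/

set_option autoImplicit false
set_option linter.overlappingInstances false
set_option linter.unusedSectionVars false

open FF IntermediateField Pool.Agent.W619.PQ Pool.Agent.W619.PL Pool.Agent.W619.TW
  Pool.Agent.W603.LV Pool.Agent.W672.PG Pool.Agent.W619.Y Pool.Agent.W602.GT

namespace Pool.Agent.V7H50.S

section

open scoped Classical in
theorem bog_abs (k : Type) (L : Type) [Field k] [CharZero k] [IsAlgClosed k]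
    [Field L] [Algebra k L] (W b : ℕ) (G : Subgroup (L ≃ₐ[k] L)) [Finite G]
    (hn : Algebra.trdeg k L = (W : ℕ)) (z : Fin b → fixedField G)
    (hz : AlgebraicIndependent k z) (m : ℕ) (hm : 1 ≤ m)
    (B : Fin (b + 1) → L) (hB0 : ∀ l, B l ≠ 0)
    (hind : AlgebraicIndependent k (fun l : Fin b => B l.succ / B 0))
    (hreg : ∀ v : Place k (fixedField G), Pool.Agent.W619.PQ.IsDivisorial v W →
      ∃ (w : Place k L) (e : ℕ),
      Over w v e ∧ ∀ l (D : Fin b → Derivation k (fixedField G) (fixedField G)),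
        (∀ j, Pres v (D j)) → ∀ g : G,
        Ge w 0 ((g : L ≃ₐ[k] L) (B l * ((dform z D : fixedField G) : L) ^ m))) :
    BogSheaf k (fixedField G) W (fun _ => False) b := by
  have := Fintype.ofFinite G
  have : CharZero (fixedField G) := charZero_of_alg (k := k)
  have halgK := Pool.Agent.W721.PG.EFF2.alg_fixed G
  have htrK : Algebra.trdeg k (fixedField G) = (W : ℕ) := by
    have h5 := trdeg_add_eq k (fixedField G) (A := L)
    rw [trdeg_eq_zero (R := fixedField G) (A := L), add_zero] at h5
    rw [h5, hn]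
  have hfix : ∀ (g : G) (f : fixedField G), (g : L ≃ₐ[k] L) (f : L) = (f : L) := fun g f => f.2 g
  obtain ⟨R, tt, r, q, hR, hrq, hs0, hsi⟩ := Pool.Agent.W513.PG.main k L G 1 b
    (fun g l => (g : L ≃ₐ[k] L) (B l)) (fun l => by
      change B l ≠ 0
      exact hB0 l) (by
      have e1 : (fun l : Fin b => ((1 : G) : L ≃ₐ[k] L) (B l.succ) /
          ((1 : G) : L ≃ₐ[k] L) (B 0)) = fun l : Fin b => B l.succ / B 0 := by
        funext l
        rfl
      rw [e1]
      exact hind)
  let s : Fin (b + 1) → L := fun j => esy (fun g : G => (g : L ≃ₐ[k] L) (B (tt j))) (r j) ^ q j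
  have hsG : ∀ j (g : G), (g : L ≃ₐ[k] L) (s j) = s j := by
    intro j g
    change (g : L ≃ₐ[k] L) (esy (fun g : G => (g : L ≃ₐ[k] L) (B (tt j))) (r j) ^ q j) = _
    rw [map_pow]
    congr 1
    exact esy_inv _ (g : L ≃ₐ[k] L) (Equiv.mulLeft g) (fun i => rfl) _
  let f : Fin (b + 1) → fixedField G := fun j => ⟨s j, fun g => hsG j g⟩
  obtain ⟨D1, hD1⟩ := Pool.Agent.TH710.SP.dform_ne htrK hz
  have hkey : ∀ P : Place k (fixedField G), Divisorial W P →
      ∀ D : Fin b → Derivation k (fixedField G) (fixedField G),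
      (∀ i, DerReg P (D i)) → ∀ j, P.Reg (f j * dform z D ^ (m * R)) := by
    intro P hP D hD j
    obtain ⟨w, ee, hwv, h1⟩ := hreg P hP
    have h2 : w.Reg (((f j * dform z D ^ (m * R) : fixedField G)) : L) := by
      have e1 : ((f j * dform z D ^ (m * R) : fixedField G) : L) =
          esy (fun g : G => (g : L ≃ₐ[k] L) (B (tt j) * ((dform z D : fixedField G) : L) ^ m))
            (r j) ^ q j := by
        have e2 : (fun g : G => (g : L ≃ₐ[k] L) (B (tt j) * ((dform z D : fixedField G) : L) ^ m)) =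
            fun g : G => (g : L ≃ₐ[k] L) (B (tt j)) * ((dform z D : fixedField G) : L) ^ m := by
          funext g
          rw [map_mul, map_pow, hfix]
        rw [e2, esy_mul, mul_pow, ← pow_mul, ← pow_mul, hrq j]
        push_cast
        ring
      rw [e1]
      exact ge_pow0 (ge_esy _ (fun g => h1 (tt j) D hD g) _) _
    exact hwv.reg.1 h2
  refine ⟨dform z, ?_, m * R, Nat.mul_pos hm hR, f, ?_, ?_, ?_, ?_⟩
  · intro h0
    rw [h0] at hD1
    simp at hD1
  · intro P hP D hDl j
    exact hkey P hP D (fun i => Pool.Agent.Y190.QP.derReg_of_log (hDl i)) j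
  · intro P hP _ D hDr j
    exact hkey P hP D hDr j
  · intro h0
    exact pow_ne_zero _ (hs0 0) (congrArg Subtype.val h0)
  · have hsi' : AlgebraicIndependent k fun l : Fin b => ((f l.succ / f 0 : fixedField G) : L) := hsi
    exact (AlgHom.algebraicIndependent_iff (fixedField G).val (Subtype.val_injective)).1 hsi'

end

end Pool.Agent.V7H50.S
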