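import Pool.Agent.V7H50.S.Abs
import Pool.Agent.Y191.Base

/-! Algebraic independence and determinants. -/

set_option autoImplicit false
set_option linter.overlappingInstances false
set_option linter.unusedSectionVars false

open FF IntermediateField Pool.Agent.W619.PQ Pool.Agent.W619.PL Pool.Agent.W619.TW
  Pool.Agent.W603.LV Pool.Agent.W672.PG Pool.Agent.W619.Y Pool.Agent.W602.GT

namespace Pool.Agent.V7H50.S

section

variable {k L : Type} [Field k] [Field L] [Algebra k L]

theorem alg_down {s : Set L} {z : L} (h : IsAlgebraic (IntermediateField.adjoin k s) z) :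
    IsAlgebraic (Algebra.adjoin k s) z := by
  open scoped algebraAdjoinAdjoin in
  have h4 : Algebra.IsAlgebraic (Algebra.adjoin k s) (IntermediateField.adjoin k s) := inferInstance
  open scoped algebraAdjoinAdjoin in
  exact IsAlgebraic.restrictScalars (Algebra.adjoin k s) h

theorem alg_up {s : Set L} (A : IntermediateField k L)
    (hA : ∀ z ∈ A, IsAlgebraic (IntermediateField.adjoin k s) z) {z : L} (hz : IsAlgebraic A z) :
    IsAlgebraic (IntermediateField.adjoin k s) z := by
  let S : IntermediateField k L := adjoin k s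
  let C : IntermediateField S L := algebraicClosure S L
  have hAC : A ≤ C.restrictScalars k := fun z hz => by
    rw [mem_restrictScalars, mem_algebraicClosure_iff]
    exact hA z hz
  let f : A →+* C := (A.val : A →+* L).codRestrict C fun y => hAC y.2
  have h2 : IsAlgebraic C z := hz.ringHom_of_comp_eq f (RingHom.id L) f.injective (by ext y; rfl)
  have h4 : Algebra.IsAlgebraic S C := algebraicClosure.isAlgebraic S L
  exact IsAlgebraic.restrictScalars S h2

theorem mix_alg {ι : Type} {n : ℕ} (M : IntermediateField k L)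
    (F : Fin n → IntermediateField k L) [∀ i, IsFF k (F i)] (y : ι → M)
    (hy : IsTranscendenceBasis k y) (x : ∀ i, F i) (hx : ∀ i, Transcendental k (x i)) {z : L}
    (hz : z ∈ M ⊔ ⨆ i, F i) : IsAlgebraic (IntermediateField.adjoin k
      (Set.range (Sum.elim (fun l => (y l : L)) (fun i => (x i : L))))) z := by
  let S : IntermediateField k L := adjoin k
    (Set.range (Sum.elim (fun l => (y l : L)) (fun i => (x i : L))))
  let A : IntermediateField S L := algebraicClosure S L
  have hA : M ⊔ ⨆ i, F i ≤ A.restrictScalars k := by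
    refine sup_le (fun z hz => ?_) (iSup_le fun i z hz => ?_)
    · rw [mem_restrictScalars, mem_algebraicClosure_iff]
      have h1 := hy.isAlgebraic.isAlgebraic (⟨z, hz⟩ : M)
      have hle : Algebra.adjoin k (Set.range y) ≤ S.toSubalgebra.comap M.val := by
        refine Algebra.adjoin_le ?_
        rintro _ ⟨l, rfl⟩
        exact subset_adjoin k _ ⟨Sum.inl l, rfl⟩
      let f : Algebra.adjoin k (Set.range y) →+* S :=
        ((M.val : M →+* L).comp (algebraMap (Algebra.adjoin k (Set.range y)) M)).codRestrict S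
          fun y => hle y.2
      have hf : Function.Injective f := by
        intro a b hab
        apply Subtype.ext
        apply Subtype.ext
        exact congrArg (fun z : S => (z : L)) hab
      exact h1.ringHom_of_comp_eq f (M.val : M →+* L) hf (by ext y; rfl)
    · rw [mem_restrictScalars, mem_algebraicClosure_iff]
      exact alg_of_mem (F i) (hx i) S (subset_adjoin k _ ⟨Sum.inr i, rfl⟩) ⟨z, hz⟩
  have h5 := hA hz
  rw [mem_restrictScalars, mem_algebraicClosure_iff] at h5
  exact h5

theorem mix_ind {d n : ℕ} {ι : Type} [Fintype ι] (M : IntermediateField k L)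
    (F : Fin n → IntermediateField k L) [∀ i, IsFF k (F i)]
    (htr : Algebra.trdeg k ↥(M ⊔ ⨆ i, F i) = (d + n : ℕ))
    (hι : Fintype.card ι = d) (y : ι → M) (hy : IsTranscendenceBasis k y) (x : ∀ i, F i)
    (hx : ∀ i, Transcendental k (x i)) :
    AlgebraicIndependent k (Sum.elim (fun l => (y l : L)) (fun i => (x i : L))) := by
  obtain ⟨u, hu⟩ := exists_fin_basis (k := k) (d + n) htr
  have hu' : AlgebraicIndependent k (fun i => (u i : L)) :=
    hu.1.map' (f := (M ⊔ ⨆ i, F i).val) (M ⊔ ⨆ i, F i).val.toRingHom.injective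
  refine Pool.Agent.W513.PG.tool (by simp [hι]) (fun i => (u i : L)) hu' _ fun i => ?_
  exact alg_down (mix_alg M F y hy x hx (u i).2)

theorem mix_ind' {d n A : ℕ} (M : IntermediateField k L)
    (F : Fin n → IntermediateField k L) [∀ i, IsFF k (F i)]
    (htr : Algebra.trdeg k ↥(M ⊔ ⨆ i, F i) = (d + n : ℕ))
    (hM : Algebra.trdeg k M = d) (r : Fin A → M) (hr : AlgebraicIndependent k r) (x : ∀ i, F i)
    (hx : ∀ i, Transcendental k (x i)) :
    AlgebraicIndependent k (Sum.elim (fun l => (r l : L)) (fun i => (x i : L))) := by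
  classical
  obtain ⟨t, ht1, ht2⟩ := exists_isTranscendenceBasis_superset (R := k) (s := Set.range r)
    hr.to_subtype_range
  have hcard := ht2.cardinalMk_eq_trdeg
  rw [hM] at hcard
  have hfin : Finite t := by
    rw [← Cardinal.mk_lt_aleph0_iff, hcard]
    exact Cardinal.natCast_lt_aleph0
  have := Fintype.ofFinite t
  have hι : Fintype.card t = d := by
    rw [Cardinal.mk_fintype] at hcard
    exact_mod_cast hcard
  have h1 := mix_ind M F htr hι (fun l : t => (l : M)) ht2 x hx
  have h2 := h1.comp (Sum.map (fun l : Fin A => (⟨r l, ht1 ⟨l, rfl⟩⟩ : t)) (id : Fin n → Fin n))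
    (by
      refine Sum.map_injective.2 ⟨?_, Function.injective_id⟩
      intro a b hab
      exact hr.injective (congrArg (fun z : t => (z : M)) hab))
  have e : Sum.elim (fun l => (r l : L)) (fun i => (x i : L)) =
      Sum.elim (fun l : t => ((l : M) : L)) (fun i => (x i : L)) ∘
        (Sum.map (fun l : Fin A => (⟨r l, ht1 ⟨l, rfl⟩⟩ : t)) (id : Fin n → Fin n)) := by
    funext z
    rcases z with z | z <;> rfl
  rw [e]
  exact h2

theorem exists_z {b : ℕ} (t : Fin b → L) (ht : AlgebraicIndependent k t)
    (G : Subgroup (L ≃ₐ[k] L)) [Finite G]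
    (hG : ∀ (g : G) i, IsAlgebraic (IntermediateField.adjoin k (Set.range t))
      ((g : L ≃ₐ[k] L) (t i))) :
    ∃ z : Fin b → fixedField G, AlgebraicIndependent k z ∧
      ∀ j, IsAlgebraic (IntermediateField.adjoin k (Set.range t)) (z j : L) := by
  have := Fintype.ofFinite G
  let s : Fin b × ℕ → L := fun σ => esy (fun g : G => (g : L ≃ₐ[k] L) (t σ.1)) σ.2
  have hsG : ∀ j (g : G), (g : L ≃ₐ[k] L) (s j) = s j := by
    intro j g
    exact esy_inv _ (g : L ≃ₐ[k] L) (Equiv.mulLeft g) (fun i => rfl) _
  obtain ⟨f, -, hf⟩ := Pool.Agent.W513.PG.select t ht s (fun i => by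
    exact Pool.Agent.W513.PG.root_alg (fun g : G => (g : L ≃ₐ[k] L) (t i)) 1 _ fun r =>
      Algebra.subset_adjoin ⟨(i, r), rfl⟩)
  refine ⟨fun j => ⟨s (f j), fun g => hsG _ g⟩, ?_, fun j => ?_⟩
  · exact (AlgHom.algebraicIndependent_iff (fixedField G).val (Subtype.val_injective)).1 hf
  · change IsAlgebraic (IntermediateField.adjoin k (Set.range t))
      (∑ T ∈ Finset.powersetCard (f j).2 Finset.univ, ∏ g ∈ T,
        ((g : G) : L ≃ₐ[k] L) (t (f j).1))
    have h1 : ∀ g : G, ((g : G) : L ≃ₐ[k] L) (t (f j).1) ∈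
        algebraicClosure (IntermediateField.adjoin k (Set.range t)) L := fun g =>
      (mem_algebraicClosure_iff (F := IntermediateField.adjoin k (Set.range t)) (E := L)).2 (hG g _)
    have h2 : (∑ T ∈ Finset.powersetCard (f j).2 (Finset.univ : Finset G), ∏ g ∈ T,
        ((g : G) : L ≃ₐ[k] L) (t (f j).1)) ∈
        algebraicClosure (IntermediateField.adjoin k (Set.range t)) L :=
      sum_mem fun T _ => prod_mem fun g _ => h1 g
    exact (mem_algebraicClosure_iff (F := IntermediateField.adjoin k (Set.range t)) (E := L)).1 h2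

theorem det_rel [CharZero k] {b : ℕ} {t z : Fin b → L} (ht : AlgebraicIndependent k t)
    (hz : AlgebraicIndependent k z)
    (hzt : ∀ j, IsAlgebraic (IntermediateField.adjoin k (Set.range t)) (z j)) :
    ∃ c : L, c ≠ 0 ∧ ∀ D : Fin b → Derivation k L L, dform z D = c * dform t D := by
  classical
  obtain ⟨E, hE⟩ := Pool.Agent.Y191.exists_dual ht
  have hexp : ∀ (D : Derivation k L L) j, D (z j) = ∑ i, D (t i) * E i (z j) := by
    intro D j
    have h1 : (D - ∑ i, D (t i) • E i) (z j) = 0 := by
      refine Pool.Agent.Y191.der_alg0 _ (S := Set.range t) ?_ (hzt j)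
      rintro _ ⟨l, rfl⟩
      rw [Derivation.sub_apply, Pool.Agent.W721.PG.EFF2.der_sum]
      simp [hE]
    rw [Derivation.sub_apply, Pool.Agent.W721.PG.EFF2.der_sum, sub_eq_zero] at h1
    exact h1
  have hmain : ∀ D : Fin b → Derivation k L L,
      dform z D = (Matrix.of fun i j => E i (z j)).det * dform t D := by
    intro D
    rw [dform_apply, dform_apply, mul_comm, ← Matrix.det_mul]
    congr 1
    ext a j
    rw [Matrix.of_apply, hexp, Matrix.mul_apply]
    rfl
  refine ⟨(Matrix.of fun i j => E i (z j)).det, fun h0 => ?_, hmain⟩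
  obtain ⟨D, hD⟩ := Pool.Agent.Y191.exists_dual hz
  have h1 := hmain D
  rw [h0, zero_mul, dform_apply] at h1
  have h2 : (Matrix.of fun i j => D i (z j)) = 1 := by
    ext i j
    rw [Matrix.of_apply, hD, Matrix.one_apply]
  rw [h2, Matrix.det_one] at h1
  exact one_ne_zero h1

end

end Pool.Agent.V7H50.S
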