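import Pool.Agent.V7H50.Reg

/-! Regularity of forms of lower degree at a place of the quotient. -/

set_option autoImplicit false
set_option linter.overlappingInstances false
set_option linter.unusedSectionVars false

universe u v

open Algebra FF IntermediateField Pool.Agent.W619.PQ Pool.Agent.W619.PL Pool.Agent.W619.TW
  Pool.Agent.W603.LV Pool.Agent.W619.Y Pool.Agent.W140.PG.REG2

namespace Pool.Agent.V7H50.S

section

/-- From an estimate for logarithmic vector fields at `w` to the regularity at `v`. -/
theorem core (k : Type v) (L : Type u) [Field k] [CharZero k] [IsAlgClosed k]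
    [Field L] [Algebra k L] (W N : ℕ) (G : Subgroup (L ≃ₐ[k] L)) [Finite G]
    (htr : Algebra.trdeg k L = (W : ℕ)) (v : Place k (fixedField G)) (w : Place k L) (e : ℕ)
    (hwv : Over w v e) (t : Fin N → L) (A : L) (m : ℕ) (Q : Prop)
    (hreg : e = 1 ∧ Q → ∀ D' : Fin N → Derivation k L L,
      (∀ j z, w.Reg z → w.Reg (D' j z)) →
      Ge w 0 (A * (Matrix.of fun i j => D' j (t i)).det ^ m))
    (hlg : ¬ (e = 1 ∧ Q) → ∀ E' : Fin N → Derivation k L L,
      (∀ j z, w.Reg (E' j z / z)) →
      (∀ (g : G) j z, (g : L ≃ₐ[k] L) (E' j z) = E' j ((g : L ≃ₐ[k] L) z)) →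
      Ge w (m * e) (A * (Matrix.of fun i j => E' j (t i)).det ^ m))
    (D : Fin N → Derivation k (fixedField G) (fixedField G))
    (D' : Fin N → Derivation k L L)
    (hD : ∀ j, Pres v (D j)) (hDD : ∀ j (f : fixedField G), D' j (f : L) = (D j f : L)) :
    Ge w 0 (A * (Matrix.of fun i j => D' j (t i)).det ^ m) := by
  classical
  have hGal : IsGaloisGroup G (fixedField G) L := isGaloisGroup_fixed G
  have hfd : FiniteDimensional (fixedField G) L :=
    IsGaloisGroup.finiteDimensional G (fixedField G) L
  have halg : Algebra.IsAlgebraic (fixedField G) L := inferInstance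
  have htrK : Algebra.trdeg k (fixedField G) = (W : ℕ) := by
    have h5 := trdeg_add_eq k (fixedField G) (A := L)
    rw [trdeg_eq_zero (R := fixedField G) (A := L), add_zero] at h5
    rw [h5, htr]
  have hcomm : ∀ (E : Derivation k (fixedField G) (fixedField G)) (E' : Derivation k L L),
      (∀ f : fixedField G, E' (f : L) = (E f : L)) →
      ∀ (g : G) z, (g : L ≃ₐ[k] L) (E' z) = E' ((g : L ≃ₐ[k] L) z) := by
    intro E E' hE g z
    obtain ⟨E0, hE0, huniq, hg⟩ := pEXT k (fixedField G) L W htrK E
    have h5 : E' = E0 := huniq E' hE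
    rw [h5]
    exact hg g (fun f => f.2 g) z
  by_cases hcase : e = 1 ∧ Q
  · have hpres : ∀ j, ∀ z : L, w.Reg z → w.Reg (D' j z) := by
      intro j
      refine pPRES k (fixedField G) L v w e hwv (D' j) ?_ (Or.inl hcase.1)
      intro f hf
      have h5 : D' j (algebraMap (fixedField G) L f) = algebraMap (fixedField G) L (D j f) :=
        hDD j f
      rw [h5]
      exact hwv.reg.2 (hD j f hf)
    exact hreg hcase D' hpres
  obtain ⟨s, hs0, hs⟩ := v.surj
  have hsL : algebraMap (fixedField G) L s ≠ 0 := by simpa using hs0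
  have hlogcase : ∀ (E : Fin N → Derivation k (fixedField G) (fixedField G))
      (E' : Fin N → Derivation k L L), (∀ j, Pres v (E j)) →
      (∀ j (f : fixedField G), E' j (f : L) = (E j f : L)) →
      (∀ j, v.Reg (E j s / s)) → Ge w (m * e) (A *
        (Matrix.of fun i j => E' j (t i)).det ^ m) := by
    intro E E' hE hEE hEs
    refine hlg hcase E' ?_ fun g j z => hcomm (E j) (E' j) (hEE j) g z
    intro j
    refine pLOG k (fixedField G) L v w e hwv (E' j) ?_
    intro f
    have h5 : v.Reg (E j f / f) := log_of_pres v (E j) (hE j) hs0 hs (hEs j) f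
    have h6 : E' j (algebraMap (fixedField G) L f) / algebraMap (fixedField G) L f =
        algebraMap (fixedField G) L (E j f / f) := by
      rw [map_div₀]
      congr 1
      exact hEE j f
    rw [h6]
    exact hwv.reg.2 h5
  by_cases hlog : ∀ j, v.Reg (D j s / s)
  · exact (hlogcase D D' hD hDD hlog).mono (by positivity)
  push Not at hlog
  obtain ⟨j0, hj0⟩ := hlog
  have h5 : v.Reg (D j0 s) := hD j0 s (Or.inr (by omega))
  have h6 : D j0 s ≠ 0 := by
    intro h6
    apply hj0
    left
    rw [h6, zero_div]
  have h7 : v.ord (D j0 s) = 0 := by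
    have h8 : 0 ≤ v.ord (D j0 s) := h5.resolve_left h6
    by_contra h9
    apply hj0
    right
    rw [v.ord_div h6 hs0, hs]
    omega
  let c : Fin N → fixedField G := fun j => if j = j0 then 0 else -(D j s / D j0 s)
  let u : Fin N → fixedField G := fun j => if j = j0 then s else 1
  let E : Fin N → Derivation k (fixedField G) (fixedField G) := fun j =>
    u j • (D j + c j • D j0)
  let E' : Fin N → Derivation k L L := fun j =>
    (u j : L) • (D' j + (c j : L) • D' j0)
  have hinv : Ge v 0 (D j0 s)⁻¹ := Or.inr (by rw [v.ord_inv, h7]; simp)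
  have hc : ∀ j, Ge v 0 (c j) := by
    intro j
    by_cases hj : j = j0
    · left; simp [c, hj]
    · simp only [c, hj, if_false]
      have h8 : Ge v 0 (D j s) := hD j s (Or.inr (by omega))
      rw [div_eq_mul_inv]
      simpa using (h8.mul hinv).neg
  have hu : ∀ j, Ge v 0 (u j) := by
    intro j
    by_cases hj : j = j0
    · simp only [u, hj, if_true]; exact Or.inr (by omega)
    · simp only [u, hj, if_false]; exact Ge.one
  have hE : ∀ j, Pres v (E j) := by
    intro j f hf
    change Ge v 0 (u j * (D j f + c j * D j0 f))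
    have h8 : Ge v 0 (D j f) := hD j f hf
    have h9 : Ge v 0 (D j0 f) := hD j0 f hf
    have h10 := (hc j).mul h9
    rw [add_zero] at h10
    simpa using (hu j).mul (h8.add h10)
  have hEE : ∀ j (f : fixedField G), E' j (f : L) = (E j f : L) := by
    intro j f
    change (u j : L) * (D' j (f : L) + (c j : L) * D' j0 (f : L)) = _
    rw [hDD, hDD]
    rfl
  have hEs : ∀ j, v.Reg (E j s / s) := by
    intro j
    change v.Reg (u j * (D j s + c j * D j0 s) / s)
    by_cases hj : j = j0
    · have h8 : u j * (D j s + c j * D j0 s) / s = D j0 s := by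
        simp only [u, c, hj, if_true, zero_mul, add_zero]
        field_simp
      rw [h8]
      exact h5
    · have h8 : u j * (D j s + c j * D j0 s) / s = 0 := by
        simp only [u, c, hj, if_false]
        field_simp
        ring
      rw [h8]
      exact Or.inl rfl
  have hdet : (Matrix.of fun i j => E' j (t i)).det =
      (s : L) * (Matrix.of fun i j => D' j (t i)).det := by
    have h8 := det_change' D' t j0 (fun j => (c j : L))
      (fun j => (u j : L)) (by simp [c])
    have h9 : ∏ j, (u j : L) = (s : L) := by
      have h10 : ∀ j, (u j : L) = if j = j0 then (s : L) else 1 := by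
        intro j
        simp only [u]
        split_ifs <;> rfl
      rw [Finset.prod_congr rfl fun j _ => h10 j]
      simp
    rw [h9] at h8
    exact h8
  have h10 := hlogcase E E' hE hEE hEs
  rw [hdet] at h10
  have h11 : A * ((s : L) * (Matrix.of fun i j => D' j (t i)).det) ^ m =
      (s : L) ^ m * (A * (Matrix.of fun i j => D' j (t i)).det ^ m) := by
    rw [mul_pow]; ring
  rw [h11] at h10
  have hsL' : (s : L) ≠ 0 := hsL
  have hsord : w.ord (s : L) = e := by
    have h12 := hwv.2 s
    rw [hs, mul_one] at h12
    exact h12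
  refine Ge.of_mul' (P := w) (N := 0) (m := m * e) (pow_ne_zero m hsL') ?_ ?_
  · rw [w.ord_pow, hsord]
  · rw [zero_add]; exact h10

end

end Pool.Agent.V7H50.S
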