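import Pool.Agent.N170.JS.UnirSpecial
import Pool.Agent.Y191.Base

/-! Images of special varieties are special (generically finite maps). -/

set_option autoImplicit false
set_option linter.unusedSectionVars false

open FF Pool.Agent.W603.LV Pool.Agent.W602.GT Pool.Agent.TH710.SP IntermediateField
  Pool.Agent.N170.JS

namespace Pool.Agent.V7H50.S

variable {k : Type} [Field k] {w : ℕ} {K : Type} [Field K] [Algebra k K]

variable [CharZero k] {L : Type} [Field L] [Algebra k L] [Algebra L K] [IsScalarTower k L K]

theorem up_alt {d p : ℕ} (y : Fin d → L) (E : Fin d → Derivation k L L)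
    (θ : AlternatingMap L (Derivation k L L) L (Fin p)) (v : Fin p → Derivation k K K)
    (i j : Fin p) (hij : i ≠ j) (hv : v i = v j) :
    up (K := K) y E θ.toMultilinearMap v = 0 := by
  classical
  have : CharZero K := charZero_of_injective_algebraMap (algebraMap k K).injective
  have h1 : up (K := K) y E θ.toMultilinearMap v = - up (K := K) y E θ.toMultilinearMap v := by
    rw [up_apply]
    conv_lhs => rw [← Equiv.sum_comp (Equiv.arrowCongr (Equiv.swap i j) (Equiv.refl (Fin d)))]
    rw [← Finset.sum_neg_distrib]
    refine Finset.sum_congr rfl fun I _ => ?_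
    have h2 : ∀ a, (Equiv.arrowCongr (Equiv.swap i j) (Equiv.refl (Fin d))) I a =
        I (Equiv.swap i j a) := by
      intro a
      simp [Equiv.arrowCongr]
    have h3 : (θ.toMultilinearMap fun a => E ((Equiv.arrowCongr (Equiv.swap i j)
        (Equiv.refl (Fin d))) I a)) = - θ.toMultilinearMap fun a => E (I a) := by
      have h4 := θ.map_swap (fun a => E (I a)) hij
      simp only [h2]
      exact h4
    have h5 : ∏ a, v a (algebraMap L K (y ((Equiv.arrowCongr (Equiv.swap i j)
        (Equiv.refl (Fin d))) I a))) = ∏ a, v a (algebraMap L K (y (I a))) := by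
      simp only [h2]
      have h6 : ∀ a, v a = v (Equiv.swap i j a) := by
        intro a
        rcases eq_or_ne a i with h | h
        · rw [h, Equiv.swap_apply_left, hv]
        · rcases eq_or_ne a j with h' | h'
          · rw [h', Equiv.swap_apply_right, hv]
          · rw [Equiv.swap_apply_of_ne_of_ne h h']
      rw [← Equiv.prod_comp (Equiv.swap i j) (fun a => v a (algebraMap L K (y (I a))))]
      refine Finset.prod_congr rfl fun a _ => ?_
      rw [← h6 a]
    rw [h3, h5, map_neg, neg_mul]
  have h2 : (2 : K) * up (K := K) y E θ.toMultilinearMap v = 0 := by linear_combination h1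
  exact (mul_eq_zero.1 h2).resolve_left two_ne_zero

/-- the pull back of an alternating form -/
noncomputable def upA {d p : ℕ} (y : Fin d → L) (E : Fin d → Derivation k L L)
    (θ : AlternatingMap L (Derivation k L L) L (Fin p)) :
    AlternatingMap K (Derivation k K K) K (Fin p) :=
  { up (K := K) y E θ.toMultilinearMap with
    map_eq_zero_of_eq' := fun v i j hv hij => up_alt y E θ v i j hij hv }

theorem upA_apply {d p : ℕ} (y : Fin d → L) (E : Fin d → Derivation k L L)
    (θ : AlternatingMap L (Derivation k L L) L (Fin p)) (D : Fin p → Derivation k K K) :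
    upA (K := K) y E θ D = up (K := K) y E θ.toMultilinearMap D := rfl

/-- **Images of special varieties are special.** -/
theorem special_down {w' : ℕ} (hL : Algebra.trdeg k L = w') (hK : Algebra.trdeg k K = w)
    (hfin : ∀ y : Fin w' → L, IsTranscendenceBasis k y →
      FiniteDimensional (IntermediateField.adjoin k (Set.range y)) L)
    (h : Special k K w (fun _ => False)) : Special k L w' (fun _ => False) := by
  classical
  rintro p hp ⟨θ, hθ, N, hN, f, -, hreg, hf0, hind⟩
  obtain ⟨x, hx⟩ : ∃ x : Fin w' → L, IsTranscendenceBasis k x := by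
    obtain ⟨s, hs⟩ := exists_isTranscendenceBasis k L
    have h1 := hs.cardinalMk_eq_trdeg
    rw [hL] at h1
    have h2 : Nonempty (Fin w' ≃ s) := by
      have h3 : Cardinal.mk (Fin w') = Cardinal.mk s := by
        rw [Cardinal.mk_fin]
        exact h1.symm
      exact Cardinal.eq.1 h3
    obtain ⟨e⟩ := h2
    exact ⟨fun i => (e i : L), hs.comp_equiv e⟩
  have hE : ∀ i : Fin w', ∃ E : Derivation k L L, ∀ j, E (x j) = if i = j then 1 else 0 :=
    fun i => Pool.Agent.W602.GT.exists_der x hx _
  choose E hE using hE
  have hkey : ∀ P : Place k K, Divisorial w P → ∀ D : Fin p → Derivation k K K,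
      (∀ j, DerReg P (D j)) → ∀ j, P.Reg (algebraMap L K (f j) * upA (K := K) x E θ D ^ N) := by
    intro P hP D hD j
    by_cases htriv : ∃ f : L, P.ord (algebraMap L K f) ≠ 0
    · obtain ⟨e, u, hu⟩ := exists_over (K := L) P htriv
      have hdiv : Divisorial w' u :=
        Pool.Agent.W419.PG.main k L K w' w u P e hL hK hu hP
      obtain ⟨y', E', i0, hy', hE', -, hyr, hpres⟩ :=
        Pool.Agent.W240.PG.Frame.main Pool.Agent.W762.PG.main k L w' hL hfin u hdiv
      have hregL : ∀ f : L, u.Reg f → P.Reg (algebraMap L K f) := by
        intro f hf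
        rcases hf with hf | hf
        · left; rw [hf, map_zero]
        · right
          rw [hu.2]
          exact mul_nonneg (by positivity) hf
      rw [upA_apply, up_frame hx hE hy' hE' θ.toMultilinearMap D, up_apply]
      -- the smallest order of a coefficient
      let a : (Fin p → Fin w') → L := fun I => θ fun i => E' (I i)
      have ha : ∀ I, u.Reg (f j * a I ^ N) := fun I => hreg u hdiv (fun h => h) _
        (fun i => hpres _) j
      by_cases hall : ∀ I, a I = 0
      · have h0 : (∑ I : Fin p → Fin w', algebraMap L K (θ.toMultilinearMap fun i => E' (I i)) *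
            ∏ i, D i (algebraMap L K (y' (I i)))) = 0 := by
          refine Finset.sum_eq_zero fun I _ => ?_
          change algebraMap L K (a I) * _ = 0
          rw [hall I, map_zero, zero_mul]
        rw [h0, zero_pow hN.ne', mul_zero]
        exact Or.inl rfl
      push Not at hall
      obtain ⟨I1, hI1⟩ := hall
      obtain ⟨I0, hI0, hmin⟩ := Finset.exists_min_image
        (Finset.univ.filter fun I => a I ≠ 0) (fun I => u.ord (a I)) ⟨I1, by simp [hI1]⟩
      rw [Finset.mem_filter] at hI0
      have hge : ∀ I, Ge u (u.ord (a I0)) (a I) := by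
        intro I
        by_cases hI : a I = 0
        · exact Or.inl hI
        · exact Or.inr (hmin I (by simp [hI]))
      by_cases hf : f j = 0
      · rw [hf, map_zero, zero_mul]
        exact Or.inl rfl
      have hord : 0 ≤ u.ord (f j) + N * u.ord (a I0) := by
        rcases ha I0 with h1 | h1
        · exact absurd h1 (mul_ne_zero hf (pow_ne_zero _ hI0.2))
        · rwa [u.ord_mul hf (pow_ne_zero _ hI0.2), u.ord_pow] at h1
      have hsum : Ge P (e * u.ord (a I0)) (∑ I : Fin p → Fin w',
          algebraMap L K (θ.toMultilinearMap fun i => E' (I i)) *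
            ∏ i, D i (algebraMap L K (y' (I i)))) := by
        refine Ge.sum _ _ fun I _ => ?_
        have h1 : Ge P (e * u.ord (a I0)) (algebraMap L K (a I)) := by
          rcases hge I with h2 | h2
          · left; rw [h2, map_zero]
          · right
            rw [hu.2]
            exact mul_le_mul_of_nonneg_left h2 (by positivity)
        have h2 : Ge P 0 (∏ i, D i (algebraMap L K (y' (I i)))) :=
          reg_prod P _ _ fun i _ => hD i _ (hregL _ (hyr _))
        have h3 := h1.mul h2
        rw [add_zero] at h3
        exact h3
      have h4 : Ge P (e * u.ord (f j)) (algebraMap L K (f j)) := Or.inr (by rw [hu.2])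
      have h5 := h4.mul (hsum.pow N)
      refine (h5.mono ?_ : Ge P 0 _)
      have h6 : (0 : ℤ) ≤ e * (u.ord (f j) + N * u.ord (a I0)) := mul_nonneg (by positivity) hord
      linarith
    · push Not at htriv
      rw [upA_apply, up_apply]
      refine P.reg_mul (Or.inr (htriv _).ge) ?_
      have h1 : Ge P 0 (∑ I : Fin p → Fin w', algebraMap L K (θ.toMultilinearMap fun i => E (I i)) *
            ∏ i, D i (algebraMap L K (x (I i)))) :=
        reg_sum P _ _ fun I _ => P.reg_mul (Or.inr (htriv _).ge)
          (reg_prod P _ _ fun i _ => hD i _ (Or.inr (htriv _).ge))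
      have h2 := h1.pow N
      rw [mul_zero] at h2
      exact h2
  have hxK : AlgebraicIndependent k (fun i => algebraMap L K (x i)) :=
    hx.1.map' (f := IsScalarTower.toAlgHom k L K) (algebraMap L K).injective
  obtain ⟨F, hF⟩ := Pool.Agent.Y191.exists_dual hxK
  refine h p hp ⟨upA (K := K) x E θ, fun h0 => ?_, N, hN, fun j => algebraMap L K (f j), ?_, ?_,
    fun h0 => hf0 ((map_eq_zero _).1 h0), ?_⟩
  · apply hθ
    have hzero : ∀ J : Fin p → Fin w', θ (fun i => E (J i)) = 0 := by
      intro J
      have h1 : upA (K := K) x E θ (fun i => F (J i)) = 0 := by rw [h0]; rfl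
      rw [upA_apply, up_apply, Finset.sum_eq_single J] at h1
      · have h2 : ∏ i, F (J i) (algebraMap L K (x (J i))) = 1 :=
          Finset.prod_eq_one fun i _ => by rw [hF, if_pos rfl]
        rw [h2, mul_one] at h1
        exact (map_eq_zero _).1 h1
      · intro I _ hI
        obtain ⟨i, hi⟩ := Function.ne_iff.1 hI
        rw [Finset.prod_eq_zero (Finset.mem_univ i), mul_zero]
        rw [hF, if_neg (Ne.symm hi)]
      · intro h3
        exact absurd (Finset.mem_univ J) h3
    ext D
    have h1 := expand_tensor x E hx hE θ.toMultilinearMap D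
    change θ.toMultilinearMap D = 0
    rw [h1]
    exact Finset.sum_eq_zero fun I _ => by
      change _ * θ (fun i => E (I i)) = 0
      rw [hzero I, mul_zero]
  · intro P hP D hDl j
    exact hkey P hP D (fun i g hg => by
      rcases eq_or_ne g 0 with rfl | hg0
      · rw [map_zero]
        exact Or.inl rfl
      · have h2 := hDl i g
        have h3 : D i g = D i g / g * g := by field_simp
        rw [h3]
        exact P.reg_mul h2 hg) j
  · intro P hP _ D hDr j
    exact hkey P hP D hDr j
  · have h1 : (fun i : Fin p => algebraMap L K (f i.succ) / algebraMap L K (f 0)) =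
        fun i => (IsScalarTower.toAlgHom k L K) (f i.succ / f 0) := by
      funext i
      rw [IsScalarTower.coe_toAlgHom', map_div₀]
    rw [h1]
    exact hind.map' (f := IsScalarTower.toAlgHom k L K) (algebraMap L K).injective

end Pool.Agent.V7H50.S
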