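import Pool.Agent.V7H50.S.Low
import Pool.Agent.V7H50.S.Down
import Pool.Agent.N133.GA
import Pool.Agent.Y742.SP.Main

/-! Special quotients: definitions and final form. -/

set_option autoImplicit false
set_option linter.overlappingInstances false
set_option linter.unusedSectionVars false

open FF IntermediateField Pool.Agent.W603.LV Pool.Agent.W602.GT Pool.Agent.W619.TW
  Pool.Agent.W619.PQ
open MvPolynomial AlgebraicGeometry CategoryTheory
open Pool.Agent.W572 Pool.Agent.W572.G Pool.Agent.Y742.GG

namespace Pool.Agent.V7H50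

/-- The numerical condition on the curves with the function fields `F i` and the finite group `G`:
for some `N ≥ 1`, effective divisors `ν i` on the curves, and weights, the conditions on the ages
(for the elements of `G` which have fixed points on the variety with function field `L`) and on
the volumes hold, and `N K - ν i` has positive degree for all the curves. -/
def NumCondSp {k L : Type} [Field k] [Field L] [Algebra k L] {n : ℕ}
    (G : Subgroup (L ≃ₐ[k] L)) (σ : G →* Equiv.Perm (Fin n))
    (F : Fin n → IntermediateField k L) : Prop :=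
  ∃ (N : ℕ) (ν : ∀ i, Place k (F i) →₀ ℕ) (S : Finset (∀ i : Big F N ν, Option (Place k (F i))))
    (wt : (∀ i : Big F N ν, Option (Place k (F i))) → Big F N ν → ℝ),
    1 ≤ N ∧ AgeCond ⊤ G σ F N ν S wt ∧ VolCond F N ν S wt ∧ ∀ i, 0 < rdeg N (ν i)

/-- `M ⊆ L` is the function field of a variety `Y` of general type of dimension `d`, the
`C i ⊆ L` are function fields of curves, `M` and the `C i` are independent (so the variety with
function field `L` has a dominant rational map to the product of `Y` and the curves), and the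
automorphisms in `G` permute the `C i` through `σ` and map the elements of `M` to elements which are
algebraic over the function field of this product. -/
structure ProductMap {k L : Type} [Field k] [Field L] [Algebra k L] {n : ℕ} (d : ℕ)
    (M : IntermediateField k L) (C : Fin n → IntermediateField k L)
    (G : Subgroup (L ≃ₐ[k] L)) (σ : G →* Equiv.Perm (Fin n)) : Prop where
  fg : Algebra.EssFiniteType k M
  generalType : GeneralType k M d
  curve : ∀ i, IsFF k (C i)
  dim : Algebra.trdeg k ↥(M ⊔ ⨆ i, C i) = (d + n : ℕ)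
  perm : ∀ (g : G) i, ∀ z ∈ C i, (g : L ≃ₐ[k] L) z ∈ C (σ g i)
  stable : ∀ (g : G), ∀ z ∈ M, IsAlgebraic ↥(M ⊔ ⨆ i, C i) ((g : L ≃ₐ[k] L) z)

/-- There is a dominant rational map over `k₀` from the hypersurface `F = 0` to `X`. -/
def Dominates {k₀ : Type} [Field k₀] {N : ℕ} (F : MvPolynomial (Fin N) k₀) {X : Scheme.{0}}
    (sX : X ⟶ Spec (.of k₀)) : Prop :=
  ∃ f : (hypersurface F).PartialMap X,
    IsDominant f.hom ∧ f.hom ≫ sX = f.domain.ι ≫ hypersurfaceStr F

namespace S

theorem not_special {k L : Type} [Field k] [CharZero k] [IsAlgClosed k] [Field L] [Algebra k L]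
    {W d n : ℕ} (hW : Algebra.trdeg k L = (W : ℕ))
    (M : IntermediateField k L) [Algebra.EssFiniteType k M] (hM : GeneralType k M d)
    (F : Fin n → IntermediateField k L) [hF : ∀ i, IsFF k (F i)]
    (htr : Algebra.trdeg k ↥(M ⊔ ⨆ i, F i) = (d + n : ℕ))
    (G : Subgroup (L ≃ₐ[k] L)) [Finite G] (σ : G →* Equiv.Perm (Fin n))
    (hσ : ∀ (g : G) i, ∀ z ∈ F i, (g : L ≃ₐ[k] L) z ∈ F (σ g i))
    (hGM : ∀ (g : G), ∀ z ∈ M, IsAlgebraic ↥(M ⊔ ⨆ i, F i) ((g : L ≃ₐ[k] L) z))
    (hnum : NumCondSp G σ F) (hdn : 1 ≤ d + n) :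
    ¬ Special k (fixedField G) W (fun _ => False) := by
  obtain ⟨N, ν, S, wt, hN, hage, hvol, hpos⟩ := hnum
  exact fun h => h (d + n) hdn (bog_low W d n hW M hM.1 F htr G σ hσ hGM N hN ν S wt hage hvol
    hpos (Pool.Agent.N133.GA.kodTr_of_gt hM))

theorem main (k₀ : Type) [Field k₀] [NumberField k₀] {N m d n w : ℕ} (F : MvPolynomial (Fin N) k₀)
    (hF : Irreducible (map (algebraMap k₀ (AlgebraicClosure k₀)) F))
    {K : Type} [Field K] [Algebra (AlgebraicClosure k₀) K] {x : Fin N → K}
    (hx : IsGenericPoint (map (algebraMap k₀ (AlgebraicClosure k₀)) F) x)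
    (B : Fin m → IntermediateField (AlgebraicClosure k₀) K)
    (hB : ∀ i, IsDoubleCoverOfLine (B i) ∨ IsEllipticTorsor (B i))
    {L : Type} [Field L] [Algebra (AlgebraicClosure k₀) L] [Algebra L K]
    [IsScalarTower (AlgebraicClosure k₀) L K] [Algebra.EssFiniteType (AlgebraicClosure k₀) L]
    (hw : Algebra.trdeg (AlgebraicClosure k₀) L = w)
    (M : IntermediateField (AlgebraicClosure k₀) L)
    (C : Fin n → IntermediateField (AlgebraicClosure k₀) L)
    (G : Subgroup (L ≃ₐ[AlgebraicClosure k₀] L)) [Finite G] (σ : G →* Equiv.Perm (Fin n))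
    (h : ProductMap d M C G σ)
    (hinv : ∀ a : K, (∀ i, IsAlgebraic (B i) a) → IsAlgebraic ↥(M ⊔ ⨆ i, C i) a)
    (hnum : d + n = 0 ∨ NumCondSp G σ C) :
    (Special (AlgebraicClosure k₀) (fixedField G) w (fun _ => False) ↔ d + n = 0) ∧
      (Special (AlgebraicClosure k₀) (fixedField G) w (fun _ => False) →
        ∀ (X : Scheme.{0}) (sX : X ⟶ Spec (.of k₀)), Dominates F sX → PotentiallyDense sX) := by
  obtain ⟨hfg, hM, hC, htr, hσ, hGM⟩ := h
  classical
  have hchar : CharZero (AlgebraicClosure k₀) := inferInstance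
  have hconst : d + n = 0 → ∀ a : K, (∀ i, IsAlgebraic (B i) a) →
      a ∈ Set.range (algebraMap (AlgebraicClosure k₀) K) := by
    intro h0 a ha
    have h1 := hinv a ha
    rw [h0, Nat.cast_zero] at htr
    have h2 : Algebra.IsAlgebraic (AlgebraicClosure k₀) ↥(M ⊔ ⨆ i, C i) :=
      _root_.trdeg_eq_zero_iff.1 htr
    have h3 : IsAlgebraic (AlgebraicClosure k₀) a := IsAlgebraic.restrictScalars _ h1
    have h5 : Algebra.IsIntegral (AlgebraicClosure k₀)
        (algebraicClosure (AlgebraicClosure k₀) K) :=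
      (algebraicClosure.isAlgebraic (AlgebraicClosure k₀) K).isIntegral
    obtain ⟨c, hc⟩ := (IsAlgClosed.algebraMap_bijective_of_isIntegral (k := AlgebraicClosure k₀)
      (K := (algebraicClosure (AlgebraicClosure k₀) K))).2
      ⟨a, (mem_algebraicClosure_iff).2 h3⟩
    exact ⟨c, congrArg Subtype.val hc⟩
  have hzero : d + n = 0 → Special (AlgebraicClosure k₀) (fixedField G) w (fun _ => False) := by
    intro h0
    obtain ⟨w', hw', hS⟩ := Pool.Agent.Y742.SP.special_main hx B hB (hconst h0)
    have hS' : Special (AlgebraicClosure k₀) L w (fun _ => False) :=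
      special_down hw hw' (fun y hy => Pool.Agent.W619.Y.fin_over y hy) hS
    have halgK := Pool.Agent.W721.PG.EFF2.alg_fixed G
    have htrK : Algebra.trdeg (AlgebraicClosure k₀) (fixedField G) = (w : ℕ) := by
      have h5 := _root_.trdeg_add_eq (AlgebraicClosure k₀) (fixedField G) (A := L)
      rw [_root_.trdeg_eq_zero (R := fixedField G) (A := L), add_zero] at h5
      rw [h5, hw]
    obtain ⟨T, hT⟩ := IntermediateField.fg_top (AlgebraicClosure k₀) L
    exact special_down htrK hw (fun y hy => Pool.Agent.N170.JS.fd_sub (K := L) htrK hw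
      T.finite_toSet hT y hy) hS'
  have hiff : Special (AlgebraicClosure k₀) (fixedField G) w (fun _ => False) ↔ d + n = 0 := by
    refine ⟨fun hS => ?_, hzero⟩
    rcases hnum with h0 | hnum
    · exact h0
    by_contra hcon
    exact not_special hw M hM C htr G σ hσ hGM hnum (by omega) hS
  refine ⟨hiff, fun hS X sX ⟨f, hf, hfk⟩ => ?_⟩
  exact Pool.Agent.Y742.CN.main k₀ (fg_of_numberField k₀) F hF hx B hB (hconst (hiff.1 hS)) sX f
    hf hfk

end S

end Pool.Agent.V7H50
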